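import Pool.Agent.helper88.RF.SpecW
set_option autoImplicit false
open Finset
namespace Pool.Agent.RF

theorem WPC_dvd_iff (d : ℤ) (x : OO) : (d : OO) ∣ x ↔ d ∣ x.re ∧ d ∣ x.im := by
  constructor
  · rintro ⟨y, rfl⟩
    constructor
    · refine ⟨y.re, ?_⟩
      simp [QuadraticAlgebra.re_mul, QuadraticAlgebra.re_intCast, QuadraticAlgebra.im_intCast]
    · refine ⟨y.im, ?_⟩
      simp [QuadraticAlgebra.im_mul, QuadraticAlgebra.re_intCast, QuadraticAlgebra.im_intCast]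
  · rintro ⟨⟨a, ha⟩, ⟨b, hb⟩⟩
    refine ⟨⟨a, b⟩, ?_⟩
    ext
    · simp [QuadraticAlgebra.re_mul, QuadraticAlgebra.re_intCast, QuadraticAlgebra.im_intCast, ha]
    · simp [QuadraticAlgebra.im_mul, QuadraticAlgebra.re_intCast, QuadraticAlgebra.im_intCast, hb]

theorem WPC_dvd_iff_nat (d : ℕ) (x : OO) : (d : OO) ∣ x ↔ (d : ℤ) ∣ x.re ∧ (d : ℤ) ∣ x.im := by
  rw [← WPC_dvd_iff]
  simp

/-- the norm of an element divisible by an integer -/
theorem WPC_norm_dvd (d : ℕ) (x : OO) (h : (d : OO) ∣ x) : (d ^ 2 : ℕ) ∣ x.norm.natAbs := by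
  obtain ⟨y, rfl⟩ := h
  rw [map_mul, QuadraticAlgebra.norm_natCast, Int.natAbs_mul]
  refine ⟨y.norm.natAbs, ?_⟩
  rw [Int.natAbs_pow, Int.natAbs_natCast]

theorem WPC_prim {Q : ℕ} {k : OO} (hk : KK Q k) (d : ℕ) (h1 : (d : ℤ) ∣ k.re) (h2 : (d : ℤ) ∣ k.im) : d = 1 := by
  have h := WPC_norm_dvd d k ((WPC_dvd_iff_nat d k).2 ⟨h1, h2⟩)
  rcases (Nat.dvd_prime hk.pr).1 h with h' | h'
  · exact (Nat.pow_eq_one.1 h').resolve_right (by norm_num)
  · exfalso
    have hp := hk.pr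
    rw [← h'] at hp
    exact Nat.Prime.not_prime_pow (le_refl 2) hp

/-- parallel moduli are equal up to sign -/
theorem WPC_par {Q : ℕ} {k k₁ : OO} (hk : KK Q k) (hk₁ : KK Q k₁) (h : dt k k₁ = 0) : k ∣ k₁ := by
  unfold dt at h
  have hc : IsCoprime k.re k.im := by
    rw [Int.isCoprime_iff_gcd_eq_one]
    exact WPC_prim hk _ (Int.gcd_dvd_left _ _) (Int.gcd_dvd_right _ _)
  have e : k.im * k₁.re = k.re * k₁.im := by linarith
  obtain ⟨t, ht⟩ : k.re ∣ k₁.re := by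
    refine hc.dvd_of_dvd_mul_left (z := k₁.re) ⟨k₁.im, e⟩
  obtain ⟨t', ht'⟩ : k.im ∣ k₁.im := by
    refine hc.symm.dvd_of_dvd_mul_left (z := k₁.im) ⟨k₁.re, e.symm⟩
  -- the common factor
  by_cases h0 : k.im = 0
  · rw [h0, zero_mul] at ht'
    refine ⟨(t : OO), ?_⟩
    ext
    · simp [QuadraticAlgebra.re_mul, QuadraticAlgebra.re_intCast, QuadraticAlgebra.im_intCast, ht]
    · simp [QuadraticAlgebra.im_mul, QuadraticAlgebra.re_intCast, QuadraticAlgebra.im_intCast, ht', h0]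
  · by_cases h1 : k.re = 0
    · rw [h1, zero_mul] at ht
      refine ⟨(t' : OO), ?_⟩
      ext
      · simp [QuadraticAlgebra.re_mul, QuadraticAlgebra.re_intCast, QuadraticAlgebra.im_intCast, ht, h1]
      · simp [QuadraticAlgebra.im_mul, QuadraticAlgebra.re_intCast, QuadraticAlgebra.im_intCast, ht']
    · have : t = t' := by
        rw [ht, ht'] at e
        have e2 : (k.re * k.im) * t = (k.re * k.im) * t' := by linear_combination e
        exact mul_left_cancel₀ (mul_ne_zero h1 h0) e2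
      refine ⟨(t : OO), ?_⟩
      ext
      · simp [QuadraticAlgebra.re_mul, QuadraticAlgebra.re_intCast, QuadraticAlgebra.im_intCast, ht]
      · simp [QuadraticAlgebra.im_mul, QuadraticAlgebra.re_intCast, QuadraticAlgebra.im_intCast, ht', this]

/-- a prime of `h` does not divide `k` and is not 5 -/
theorem WPC_cop {h p : ℕ} {k : OO} (hc : IsCoprime (h : OO) (5 * (k * star k))) (hp : p.Prime) (hph : p ∣ h) :
    ¬ (p : OO) ∣ k ∧ p ≠ 5 := by
  have hpo : (p : OO) ∣ (h : OO) := by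
    obtain ⟨m, rfl⟩ := hph
    exact ⟨(m : OO), by push_cast; rfl⟩
  have hnu : ¬ IsUnit (p : OO) := by
    intro hu
    rw [QuadraticAlgebra.isUnit_iff_norm_isUnit, QuadraticAlgebra.norm_natCast, Int.isUnit_iff_natAbs_eq,
      Int.natAbs_pow, Int.natAbs_natCast] at hu
    have := hp.two_le
    nlinarith
  constructor
  · intro hk
    exact hnu (hc.isUnit_of_dvd' hpo ((hk.mul_right _).mul_left _))
  · intro h5
    refine hnu (hc.isUnit_of_dvd' hpo ?_)
    rw [h5]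
    exact Dvd.intro _ rfl

/-- the case of content 1 -/
theorem WPC_aux (hWSE : WSE_stmt) (hWRO : WRO_stmt) (hWFA : WFA_stmt) (Q h : ℕ) (a z : OO) (S : Finset OO)
    (hQ : 1 ≤ Q) (hh : 1 ≤ h) (hS : ∀ k ∈ S, KK Q k ∧ IsCoprime (h : OO) (5 * (k * star k)) ∧ (h : OO) ∣ FF k a z)
    (hinj : ∀ k ∈ S, ∀ k₁ ∈ S, k ∣ k₁ → k = k₁)
    (hg : ∀ p : ℕ, p.Prime → p ∣ h → ¬ ((p : OO) ∣ a ∧ (p : OO) ∣ z)) :
    (S.card : ℝ) ≤ 3 ^ h.primeFactors.card * (1 + 15 * Q / h) := by
  classical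
  have hnn : (0 : ℝ) ≤ 1 + 15 * Q / h := by positivity
  rcases S.eq_empty_or_nonempty with hSe | ⟨k0, hk0⟩
  · subst hSe
    simp only [card_empty, Nat.cast_zero]
    positivity
  let f : OO → ((q : {q // q ∈ h.primeFactors}) → Option (ZMod (q : ℕ))) := fun k q => clp (q : ℕ) k
  have himg : S.image f ⊆ Fintype.piFinset (fun q : {q // q ∈ h.primeFactors} => S.image (clp (q : ℕ))) := by
    intro b hb
    obtain ⟨k, hk, rfl⟩ := mem_image.mp hb
    rw [Fintype.mem_piFinset]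
    intro q
    exact mem_image.mpr ⟨k, hk, rfl⟩
  have hcardimg : (S.image f).card ≤ 3 ^ h.primeFactors.card := by
    refine (card_le_card himg).trans ?_
    rw [Fintype.card_piFinset]
    calc ∏ q : {q // q ∈ h.primeFactors}, (S.image (clp (q : ℕ))).card
        ≤ ∏ q : {q // q ∈ h.primeFactors}, 3 := by
          refine prod_le_prod' (fun q _ => ?_)
          have hq := Nat.prime_of_mem_primeFactors q.2
          have hqh := Nat.dvd_of_mem_primeFactors q.2
          refine (hWRO q hq (WPC_cop (hS k0 hk0).2.1 hq hqh).2).1 a z (hg q hq hqh) S ?_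
          intro k hk
          refine ⟨(WPC_cop (hS k hk).2.1 hq hqh).1, ?_⟩
          exact dvd_trans (map_dvd (Nat.castRingHom OO) hqh) (hS k hk).2.2
      _ = 3 ^ h.primeFactors.card := by simp
  have hfib : ∀ b ∈ S.image f, (((S.filter (fun k => f k = b)).card : ℕ) : ℝ) ≤ 1 + 15 * Q / h := by
    intro b _
    refine hWFA Q h _ hQ hh (fun k hk => (hS k (mem_filter.mp hk).1).1) ?_
    intro k hk k₁ hk₁ hne
    obtain ⟨hkS, hkf⟩ := mem_filter.mp hk
    obtain ⟨hkS₁, hkf₁⟩ := mem_filter.mp hk₁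
    have hff : f k = f k₁ := hkf.trans hkf₁.symm
    have hd0 : dt k k₁ ≠ 0 := fun h0 => hne (hinj k hkS k₁ hkS₁ (WPC_par (hS k hkS).1 (hS k₁ hkS₁).1 h0))
    have hdvd : (h : ℤ) ∣ dt k k₁ := by
      refine hWSE h a z k k₁ (hS k hkS).2.1 (hS k₁ hkS₁).2.1 (hS k hkS).2.2 (hS k₁ hkS₁).2.2 ?_ hg
      intro p hp hph
      have hmem : p ∈ h.primeFactors := Nat.mem_primeFactors.mpr ⟨hp, hph, by omega⟩
      have e1 : clp p k = clp p k₁ := congrFun hff ⟨p, hmem⟩
      exact (hWRO p hp (WPC_cop (hS k hkS).2.1 hp hph).2).2 k k₁ (WPC_cop (hS k hkS).2.1 hp hph).1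
        (WPC_cop (hS k₁ hkS₁).2.1 hp hph).1 e1
    exact Int.le_of_dvd (abs_pos.2 hd0) ((dvd_abs _ _).2 hdvd)
  have hsum := card_eq_sum_card_image f S
  have : (S.card : ℝ) = ∑ b ∈ S.image f, (((S.filter (fun k => f k = b)).card : ℕ) : ℝ) := by
    rw [← Nat.cast_sum]
    exact_mod_cast hsum
  rw [this]
  calc ∑ b ∈ S.image f, (((S.filter (fun k => f k = b)).card : ℕ) : ℝ)
      ≤ ∑ _b ∈ S.image f, (1 + 15 * Q / h : ℝ) := sum_le_sum hfib
    _ = (S.image f).card * (1 + 15 * Q / h : ℝ) := by rw [sum_const, nsmul_eq_mul]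
    _ ≤ _ := by
        refine mul_le_mul_of_nonneg_right ?_ hnn
        exact_mod_cast hcardimg

theorem WPC_proof (hWSE : WSE_stmt) (hWRO : WRO_stmt) (hWFA : WFA_stmt) : WPC_stmt := by
  classical
  intro Q h e a z S hQ hh hS hinj hde
  set δ := Nat.gcd h (Nat.gcd (Int.gcd a.re a.im) (Int.gcd z.re z.im)) with hδ
  have hδ0 : 0 < δ := Nat.gcd_pos_of_pos_left _ hh
  have dδh : δ ∣ h := Nat.gcd_dvd_left _ _
  have dδg : δ ∣ Nat.gcd (Int.gcd a.re a.im) (Int.gcd z.re z.im) := Nat.gcd_dvd_right _ _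
  have dδ1 : δ ∣ Int.gcd a.re a.im := dδg.trans (Nat.gcd_dvd_left _ _)
  have dδ2 : δ ∣ Int.gcd z.re z.im := dδg.trans (Nat.gcd_dvd_right _ _)
  have dA : (δ : OO) ∣ a := (WPC_dvd_iff_nat _ _).2
    ⟨(Int.natCast_dvd_natCast.mpr dδ1).trans (Int.gcd_dvd_left _ _),
      (Int.natCast_dvd_natCast.mpr dδ1).trans (Int.gcd_dvd_right _ _)⟩
  have dZ : (δ : OO) ∣ z := (WPC_dvd_iff_nat _ _).2
    ⟨(Int.natCast_dvd_natCast.mpr dδ2).trans (Int.gcd_dvd_left _ _),
      (Int.natCast_dvd_natCast.mpr dδ2).trans (Int.gcd_dvd_right _ _)⟩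
  have hδe : δ ≤ e := hde δ dδh dA dZ
  obtain ⟨h0, hh0⟩ := dδh
  obtain ⟨a0, ha0⟩ := dA
  obtain ⟨z0, hz0⟩ := dZ
  have hh0' : 1 ≤ h0 := by
    rcases Nat.eq_zero_or_pos h0 with h0z | h0z
    · rw [h0z, mul_zero] at hh0; omega
    · exact h0z
  have hcast : (h : OO) = (δ : OO) * (h0 : OO) := by
    rw [hh0]; push_cast; rfl
  have key := WPC_aux hWSE hWRO hWFA Q h0 a0 z0 S hQ hh0' ?_ hinj ?_
  · refine key.trans ?_
    have e1 : (3 : ℝ) ^ h0.primeFactors.card ≤ 3 ^ h.primeFactors.card := by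
      refine pow_le_pow_right₀ (by norm_num) (card_le_card ?_)
      exact Nat.primeFactors_mono (Dvd.intro_left _ hh0.symm) (by omega)
    have e2 : (1 + 15 * Q / h0 : ℝ) ≤ 1 + 15 * Q * e / h := by
      have hh0r : (0 : ℝ) < h0 := by exact_mod_cast hh0'
      have hδr : (0 : ℝ) < δ := by exact_mod_cast hδ0
      have hle : (δ : ℝ) ≤ e := by exact_mod_cast hδe
      have : (h : ℝ) = δ * h0 := by rw [hh0]; push_cast; ring
      rw [this]
      have e3 : (15 * Q / h0 : ℝ) = 15 * Q * δ / (δ * h0) := by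
        field_simp
      rw [e3]
      gcongr
    gcongr
  · intro k hk
    obtain ⟨h1, h2, h3⟩ := hS k hk
    refine ⟨h1, ?_, ?_⟩
    · rw [hcast] at h2
      exact h2.of_mul_left_right
    · have e1 : FF k a z = (δ : OO) * FF k a0 z0 := by
        unfold FF
        have hs : star z = (δ : OO) * star z0 := by
          rw [hz0, star_mul, star_natCast, mul_comm]
        rw [hs, ha0, hz0]
        ring
      rw [e1, hcast] at h3
      have hnn : (δ : ℤ) ≠ 0 := by exact_mod_cast hδ0.ne'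
      -- cancel the integer
      obtain ⟨y, hy⟩ := h3
      refine ⟨y, ?_⟩
      have e2 : ((δ : ℤ) : OO) * (FF k a0 z0 - h0 * y) = 0 := by
        push_cast
        linear_combination hy
      have e3 : ∀ x : OO, ((δ : ℤ) : OO) * x = 0 → x = 0 := by
        intro x hx
        have r1 := congrArg QuadraticAlgebra.re hx
        have r2 := congrArg QuadraticAlgebra.im hx
        simp only [QuadraticAlgebra.re_mul, QuadraticAlgebra.im_mul, QuadraticAlgebra.re_intCast,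
          QuadraticAlgebra.im_intCast, QuadraticAlgebra.re_zero, QuadraticAlgebra.im_zero, mul_zero, zero_mul,
          add_zero, mul_eq_zero] at r1 r2
        ext
        · exact r1.resolve_left hnn
        · exact r2.resolve_left hnn
      have e4 := e3 _ e2
      linear_combination e4
  · intro p hp hph ⟨h1, h2⟩
    have c1 : ((δ * p : ℕ) : OO) ∣ a := by
      rw [ha0]; push_cast; exact mul_dvd_mul_left _ h1
    have c2 : ((δ * p : ℕ) : OO) ∣ z := by
      rw [hz0]; push_cast; exact mul_dvd_mul_left _ h2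
    rw [WPC_dvd_iff_nat] at c1 c2
    have c5 : δ * p ∣ h := by
      rw [hh0]; exact mul_dvd_mul_left _ hph
    have c6 : δ * p ∣ Int.gcd a.re a.im := by
      exact_mod_cast Int.dvd_coe_gcd c1.1 c1.2
    have c7 : δ * p ∣ Int.gcd z.re z.im := by
      exact_mod_cast Int.dvd_coe_gcd c2.1 c2.2
    have c8 : δ * p ∣ δ := Nat.dvd_gcd c5 (Nat.dvd_gcd c6 c7)
    have := Nat.le_of_dvd hδ0 c8
    have hp2 := hp.two_le
    nlinarith

end Pool.Agent.RF
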