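import Pool.Agent.helper88.RF.SpecW
set_option autoImplicit false
open Finset
namespace Pool.Agent.RF

theorem WDA_ph : ph ^ 2 = 1 + ph := by
  ext <;> simp [ph, pow_two, QuadraticAlgebra.re_one, QuadraticAlgebra.im_one]

theorem WDA_star_ph : star ph = 1 - ph := by
  ext <;> simp [ph, QuadraticAlgebra.re_one, QuadraticAlgebra.im_one]

theorem WDA_r5 : r5 = 2 * ph - 1 := by
  ext <;> simp [ph, r5, QuadraticAlgebra.re_one, QuadraticAlgebra.im_one, QuadraticAlgebra.re_ofNat, QuadraticAlgebra.im_ofNat]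

theorem WDA_mk (u v : ℤ) : (⟨u, v⟩ : OO) = (u : OO) + (v : OO) * ph := by
  ext <;> simp [ph]

theorem WDA_proof (hWEU : WEU_stmt) (hWIN : WIN_stmt) : WDA_stmt := by
  intro k g c h α β γ P₁ P₂ u v hpr h5 hcg hRQ hd1 hd2
  have : IsDomain OO := hWEU.1
  obtain ⟨hkk, hkr, hk2, hint, -⟩ := hWIN k hpr h5
  have hk0 : k ≠ 0 := by
    rintro rfl
    rw [QuadraticAlgebra.norm_zero] at hpr
    exact Nat.not_prime_zero hpr
  have hph := WDA_ph
  have hsp := WDA_star_ph
  obtain ⟨t1, E1⟩ := (hint _).2 hd1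
  obtain ⟨t2, E2⟩ := (hint _).2 hd2
  push_cast at E1 E2
  obtain ⟨a1, A1⟩ := hRQ.ha
  obtain ⟨b1, B1⟩ := hRQ.hb
  obtain ⟨c1, C1⟩ := hRQ.hc
  rw [WDA_mk u v]
  have hSU : star ((u : OO) + (v : OO) * ph) = (u : OO) + (v : OO) * (1 - ph) := by
    rw [star_add, star_mul, hsp, star_intCast, star_intCast]
    ring
  rw [hSU]
  have hkr' := hkr
  rw [WDA_r5] at A1 B1 C1 hkr'
  -- step b
  have hb : k ^ 3 ∣ (star g * (2 * ph - 1) * star k ^ 2) * (((h : OO) * c * ((u : OO) + (v : OO) * ph)) - (ph * P₁ - P₂)) := by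
    refine ⟨(star g * star k ^ 2 * (2 * ph - 1) * ph) * t1 - (star g * star k ^ 2 * (2 * ph - 1)) * t2
      - 2 * h * u * ph * a1 - h * (ph * v - u) * b1 + 2 * h * v * c1, ?_⟩
    linear_combination (star g * star k ^ 2 * (2 * ph - 1) * ph) * E1 - (star g * star k ^ 2 * (2 * ph - 1)) * E2
      - 2 * h * u * ph * A1 - h * (ph * v - u) * B1 + 2 * h * v * C1 + 2 * v * star g * star k ^ 2 * h * c * hph
  have hco1 : IsCoprime (k ^ 3) (star g * (2 * ph - 1) * star k ^ 2) :=
    ((hcg.mul_right hkr').mul_right (hkk.pow_right)).pow_left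
  obtain ⟨e, he⟩ := hco1.dvd_of_dvd_mul_left hb
  -- step c
  have hc : k ^ 3 ∣ (2 * ph - 1) * (star g * star k ^ 2 * ((1 - ph) * P₁ - P₂) +
      h * c * (star g * star k ^ 2 * ((u : OO) + (v : OO) * (1 - ph)) + 4 * ph * k ^ 2 * g * ((u : OO) + (v : OO) * ph))) := by
    refine ⟨-(star g * star k ^ 2 * (2 * ph - 1) * (1 - ph)) * t1 + (star g * star k ^ 2 * (2 * ph - 1)) * t2
      + 2 * h * u * (1 - ph) * a1 - h * (u - (1 - ph) * v) * b1 - 2 * h * v * c1, ?_⟩
    linear_combination -(star g * star k ^ 2 * (2 * ph - 1) * (1 - ph)) * E1 + (star g * star k ^ 2 * (2 * ph - 1)) * E2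
      + 2 * h * u * (1 - ph) * A1 - h * (u - (1 - ph) * v) * B1 - 2 * h * v * C1 - 2 * v * star g * star k ^ 2 * h * c * hph
  obtain ⟨t3, h3⟩ := (hkr'.pow_left (m := 3)).dvd_of_dvd_mul_left hc
  -- conjugate of e
  have he' := congrArg star he
  rw [star_sub, star_mul, star_mul, hSU, star_sub, star_mul, star_mul, star_pow, hsp, star_intCast, star_intCast,
    star_intCast, star_intCast] at he'
  -- step d
  have hd : k ^ 2 ∣ (star g * star k ^ 2) * (star k ^ 3 * star e - 2 * h * c * ((u : OO) + (v : OO) * (1 - ph))) := by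
    refine ⟨4 * ph * h * c * g * ((u : OO) + (v : OO) * ph) - k * t3, ?_⟩
    linear_combination -h3 - (star g * star k ^ 2) * he'
  have hco2 : IsCoprime (k ^ 2) (star g * star k ^ 2) := (hcg.mul_right hkk.pow_right).pow_left
  obtain ⟨w, hw⟩ := hco2.dvd_of_dvd_mul_left hd
  have hw1 : star g * star k ^ 2 * w = 4 * ph * h * c * g * ((u : OO) + (v : OO) * ph) - k * t3 := by
    refine mul_left_cancel₀ (pow_ne_zero 2 hk0) ?_
    linear_combination -h3 - (star g * star k ^ 2) * he' - (star g * star k ^ 2) * hw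
  have hw' := congrArg star hw
  have hSS : star ((u : OO) + (v : OO) * (1 - ph)) = (u : OO) + (v : OO) * ph := by
    rw [star_add, star_mul, star_sub, star_one, hsp, star_intCast, star_intCast]
    ring
  have h2s : star (2 * (h : OO) * c) = 2 * (h : OO) * c := by
    have : (2 * (h : OO) * c) = ((2 * h * c : ℤ) : OO) := by push_cast; ring
    rw [this, star_intCast]
  rw [star_sub, star_mul, star_pow, star_star, star_star, star_mul (2 * (h : OO) * c), hSS, h2s, star_mul, star_pow] at hw'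
  have hz : k ∣ star k ^ 2 * (star g * w + 2 * ph * g * star w) := by
    refine ⟨2 * ph * g * k ^ 2 * e - t3, ?_⟩
    linear_combination hw1 - 2 * ph * g * hw'
  obtain ⟨z, hz⟩ := (hkk.pow_right (n := 2)).dvd_of_dvd_mul_left hz
  refine ⟨e, w, z, he, hw, hz, ?_⟩
  have hz' := congrArg star hz
  rw [star_add, star_mul, star_star, star_mul, star_mul, star_mul, star_star, hsp, star_mul] at hz'
  have h2 : star (2 : OO) = 2 := by
    have := star_intCast (R := OO) 2
    exact_mod_cast this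
  rw [h2] at hz'
  unfold FF
  rw [hsp]
  linear_combination -5 * g * hw' + star k ^ 2 * (2 * (1 - ph) * hz - hz') + 4 * g * star k ^ 2 * star w * hph

end Pool.Agent.RF
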