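import Pool.Agent.helper60.RF.Defs
import Pool.Agent.helper3.FT.Defs

/-!
# Project RF (MP_16912e_nt), block C (counting), part W: residues, dual map, near points

Interface of the project: `Pool/Agent/helper60/RF/Defs.lean` (`OO = ℤ[φ]`, `ph = φ`, `r5 = √5`, `va`, `vb` the two real embeddings, `star` the conjugation, written `x'` below).
The exponential sums of block C (helper95) have the phase `h (α x² + β x y + γ y²) / q³`, `q = |norm k|` prime, where `RQ k g c α β γ`. This part bounds, on average over `k` and `h`, the number of points near the dual lattice (`SNR_stmt`, the OUTPUT).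
It is the project FT / LT over the ring `OO`: the source files are `Pool/Agent/helper88/FT/DualMap.lean`, `helper63/FT/P2.lean`, `helper8/FT/P3.lean`, `helper96/FT/P4.lean`, `helper88/FT/PairCount.lean`, `helper96/FT/P6a.lean`, `helper77/FT/P6c.lean`, `helper61/FT/N.lean`, `helper3/FT/G3.lean`, `helper26/LT/TA.lean`.

RULES. Row `XXX`: file `Pool/Agent/<seat>/RF/XXX.lean`, header

  import Pool.Agent.helper88.RF.SpecW
  set_option autoImplicit false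
  open Finset
  namespace Pool.Agent.RF

and the theorem line of the lock note; auxiliary lemmas are prefixed `XXX_`. Landed files of other projects may be imported. No sorry, no straight double quotes, no `convert`, no `congr!`, no `native_decide`. Other rows are used only as hypotheses `(hYYY : YYY_stmt)` (unused ones may be dropped, any other row of this file may be added, no circles). `star` is not known to `ring`: replace `star x` by a variable (`generalize`, or `set`), use `star ph = 1 - ph`, `ph ^ 2 = 1 + ph`, `r5 = 2 * ph - 1`, `star r5 = - r5`. All identities below were checked numerically.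
-/

set_option autoImplicit false

namespace Pool.Agent.RF

open Finset

/-! ## 0. Definitions -/

/-- the trace `x + x'` -/
def trO (x : OO) : ℤ := 2 * x.re + x.im

/-- the cubic form of the dual points: `5 a k³ + 2 φ' z k k'² - z' k'³` -/
def FF (k a z : OO) : OO := 5 * a * k ^ 3 + 2 * star ph * z * k * star k ^ 2 - star z * star k ^ 3

/-- the resultant of `FF` and its conjugate, up to a unit -/
def R0 (a z : OO) : ℤ :=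
  z.norm ^ 3 - 75 * z.norm ^ 2 * a.norm - 625 * z.norm * a.norm ^ 2 - 3125 * a.norm ^ 3 -
    8 * trO (ph ^ 3 * a * star z ^ 5)

/-- `k k₁' - k' k₁ = √5 dt k k₁` -/
def dt (k k₁ : OO) : ℤ := k.im * k₁.re - k.re * k₁.im

/-- the moduli: balanced elements of prime norm in `(Q, 2 Q]` -/
structure KK (Q : ℕ) (k : OO) : Prop where
  pr : k.norm.natAbs.Prime
  n5 : k.norm.natAbs ≠ 5
  lo : Q < k.norm.natAbs
  hi : k.norm.natAbs ≤ 2 * Q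
  ba : |va k| ≤ 2 * √(Q : ℝ)
  bb : |vb k| ≤ 2 * √(Q : ℝ)

/-- the residues: `s = α x² + β x y + γ y²` solves `g' (√5 s - c N(x + y φ)) k'² = 2 φ c k² g (x + y φ)²` modulo `k³` -/
structure RQ (k g : OO) (c α β γ : ℤ) : Prop where
  ha : k ^ 3 ∣ star g * (r5 * (α : OO) - (c : OO)) * star k ^ 2 - 2 * ph * (c : OO) * k ^ 2 * g
  hb : k ^ 3 ∣ star g * (r5 * (β : OO) - (c : OO)) * star k ^ 2 - 4 * ph ^ 2 * (c : OO) * k ^ 2 * g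
  hc : k ^ 3 ∣ star g * (r5 * (γ : OO) + (c : OO)) * star k ^ 2 - 2 * ph ^ 3 * (c : OO) * k ^ 2 * g

/-- number of near points at the frequency `h` for the modulus `k` -/
noncomputable def nearK (B : ℕ) (r : OO → ℤ × ℤ × ℤ) (h : ℕ) (k : OO) : ℝ :=
  ((helper3.FT.nearPts B B (h * (r k).1 / (k.norm.natAbs : ℝ) ^ 3) (h * (r k).2.1 / (k.norm.natAbs : ℝ) ^ 3)
    (h * (r k).2.2 / (k.norm.natAbs : ℝ) ^ 3)).card : ℝ)

open Classical in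
/-- the class of `k` in the projective line modulo `p` -/
noncomputable def clp (p : ℕ) (k : OO) : Option (ZMod p) :=
  if (k.im : ZMod p) = 0 then none else some ((k.re : ZMod p) * (k.im : ZMod p)⁻¹)

/-- content -/
def cnt (x : OO) : ℕ := Int.gcd x.re x.im

/-! ## 1. The ring -/

/-- **WVA** (short; PURE). `va` is a ring homomorphism because `((1 + √5)/2)² = 1 + (1 + √5)/2`; `va x * vb x = re² + re im - im² = norm x`; `x ≠ 0` has `norm x ≠ 0` (if `va x = 0` with `im ≠ 0` then `√5` is rational; `Nat.Prime.irrational_sqrt`), a nonzero integer. -/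
def WVA_stmt : Prop := (∀ x y : OO, va (x * y) = va x * va y) ∧ (∀ x y : OO, vb (x * y) = vb x * vb y) ∧
  (∀ x y : OO, va (x + y) = va x + va y ∧ va (x - y) = va x - va y ∧ vb (x + y) = vb x + vb y ∧ vb (x - y) = vb x - vb y) ∧
  (∀ n : ℤ, va (n : OO) = n ∧ vb (n : OO) = n) ∧ (∀ x : OO, va (star x) = vb x ∧ vb (star x) = va x) ∧
  (∀ x : OO, va x * vb x = x.norm) ∧ (∀ x : OO, x ≠ 0 → x.norm ≠ 0 ∧ 1 ≤ |va x| * |vb x| ∧ va x ≠ 0 ∧ vb x ≠ 0)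

/-- **WEU** (medium; PURE). `OO` is norm-Euclidean: for `x, y` with `y ≠ 0` put `x y' / norm y = u + v φ` with rational `u, v`, round: `|u - m|, |v - n| ≤ 1/2` and `|s² + s t - t²| ≤ 5/16 < 1` for `|s|, |t| ≤ 1/2`, so `|norm (x - (m + n φ) y)| < |norm y|`. Hence a domain (`x y = 0` gives `norm x norm y = 0`) and every ideal is principal (an element of the ideal with the smallest positive `|norm|`). -/
def WEU_stmt : Prop := IsDomain OO ∧ IsPrincipalIdealRing OO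

/-- **WBX** (short; PURE). `im = (va - vb)/√5`, so `|im| ≤ L`; `|re| ≤ |va| + φ |im| ≤ 3 L`: at most `(2 L + 1)(6 L + 1)` elements. -/
def WBX_stmt : Prop := ∃ C : ℝ, 1 ≤ C ∧ ∀ L : ℝ, 1 ≤ L → ∀ S : Finset OO, (∀ x ∈ S, |va x| ≤ L ∧ |vb x| ≤ L) →
  (S.card : ℝ) ≤ C * L ^ 2

/-- **WGC** (short; PURE): `|re|, |im| ≤ 3 M` as in WBX, and `Pool.Agent.helper3.FT.gcd_sum` (`Pool/Agent/helper96/FT/P6a.lean`) with `L = ⌈3 M⌉₊`. -/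
def WGC_stmt : Prop := ∃ C : ℝ, 1 ≤ C ∧ ∀ M : ℝ, 1 ≤ M → ∀ S : Finset OO, (∀ x ∈ S, x ≠ 0 ∧ |va x| ≤ M ∧ |vb x| ≤ M) →
  ∑ x ∈ S, (cnt x : ℝ) ≤ C * M ^ 2 * (1 + Real.log M)

/-- **WIN** (medium; PURE). `q = |norm k|`, `k k' = ± q`, `k = x + y φ`.
(coprimality) `k + k' = 2x + y =: t`, `t² - 4 k k' = 5 y²`; if `q ∣ t` then `q ∣ 5 y²`, `q ∣ y`, `q ∣ x` (norm), `q² ∣ norm k`, impossible; so `a t + b q = 1` in `ℤ` and `IsCoprime k k'`. `√5 * √5 = 5` and `k k' = ± q` with `gcd(q, 5) = 1` give `IsCoprime k r5`; `q ≠ 2` (`x² + x y - y²` is even only if `x, y` are even) gives `IsCoprime k 2`.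
(integers) `k³ ∣ n` implies `k'³ ∣ n` (conjugate), so `(k k')³ ∣ n` (coprime), `q³ ∣ n` in `OO`, so in `ℤ` (`re`).
(representatives) `k³ = X + Y φ` with `q ∤ Y` (else `q ∣ X²` from `norm k³ = ± q³`, so `q ∣ k³`, `k' ∣ k³`, but `k'` is coprime to `k³` and not a unit). Take `t Y = 1 + q³ m`: `φ ≡ - t X` modulo `k³` (as `k³ ∣ q³`), so `a + b φ ≡ a - b t X`. -/
def WIN_stmt : Prop := ∀ k : OO, k.norm.natAbs.Prime → k.norm.natAbs ≠ 5 →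
  IsCoprime k (star k) ∧ IsCoprime k r5 ∧ IsCoprime k 2 ∧
  (∀ n : ℤ, k ^ 3 ∣ (n : OO) ↔ (k.norm.natAbs : ℤ) ^ 3 ∣ n) ∧ (∀ x : OO, ∃ n : ℤ, k ^ 3 ∣ x - (n : OO))

/-! ## 2. Residues and the dual map -/

/-- **WRE** (short; from WIN). `star g * r5 * star k ^ 2` is coprime to `k³`; let `t` be an inverse modulo `k³` and `α` an integer congruent to `t (g' c k'² + 2 φ c k² g)` modulo `k³` (WIN); same for `β` (`t (g' c k'² + 4 φ² c k² g)`) and `γ` (`t (- g' c k'² + 2 φ³ c k² g)`). -/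
def WRE_stmt : Prop := ∀ (k g : OO) (c : ℤ), k.norm.natAbs.Prime → k.norm.natAbs ≠ 5 → IsCoprime k (star g) →
  ∃ α β γ : ℤ, RQ k g c α β γ

/-- **WRD** (short-medium; from WIN). The combination `x² ha + x y hb + y² hc` says: `k³` divides `g' (√5 (α x² + β x y + γ y²) - c (x² + x y - y²)) k'² - 2 φ c k² g (x + y φ)²` (as `(x + y φ)² = x² + 2 φ x y + φ² y²`). So the right side holds iff `k³ ∣ g' √5 k'² (s - (α x² + β x y + γ y²))` iff `k³ ∣ s - (..)` iff `q³ ∣ s - (..)`. -/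
def WRD_stmt : Prop := ∀ (k g : OO) (c α β γ : ℤ), k.norm.natAbs.Prime → k.norm.natAbs ≠ 5 → IsCoprime k (star g) →
  RQ k g c α β γ → ∀ x y s : ℤ, (k.norm.natAbs : ℤ) ^ 3 ∣ s - (α * x ^ 2 + β * x * y + γ * y ^ 2) ↔
    k ^ 3 ∣ star g * (r5 * (s : OO) - (c : OO) * ((x ^ 2 + x * y - y ^ 2 : ℤ) : OO)) * star k ^ 2 -
      2 * ph * (c : OO) * k ^ 2 * g * (⟨x, y⟩ : OO) ^ 2

/-- **WDA** (medium; the key algebra; from WIN). Write `U = u + v φ`, `P = φ P₁ - P₂`, `q³` and `k³ ∣ q³`. `r5 = φ - φ'`, `φ φ' = -1`. All congruences modulo `k³` unless said.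
(a) `2u ha + v hb` and `u hb + 2v hc` (times `h`) give `g' √5 k'² P₁ ≡ h c [g' k'² (2u + v) + 4 φ k² g U]`, `g' √5 k'² P₂ ≡ h c [g' k'² (u - 2v) + 4 φ² k² g U]`.
(b) `φ (a₁) - (a₂)`: `φ (2u + v) - (u - 2v) = √5 U`, so `g' √5 k'² P ≡ h c g' k'² √5 U`; cancel (`g'`, `k'`, `√5` are coprime to `k`): `k³ ∣ h c U - P`; define `e`. Conjugate: `h c U' - P' = k'³ e'`.
(c) `P' = φ' P₁ - P₂`; `φ' (2u + v) - (u - 2v) = - √5 U'` and `φ' 4 φ - 4 φ² = - 4 √5 φ`: `g' k'² P' ≡ - h c [g' k'² U' + 4 φ k² g U]`. Insert `P' = h c U' - k'³ e'`: `2 h c g' k'² U' - g' k'⁵ e' + 4 φ h c k² g U ≡ 0`. Modulo `k²`: `k² ∣ g' k'² (2 h c U' - k'³ e')`, so `k² ∣ k'³ e' - 2 h c U'`: define `w`. Then `- g' k'² k² w + 4 φ h c k² g U ≡ 0`, so (domain, WEU) `k ∣ 4 φ h c g U - g' k'² w`.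
(d) conjugate of the definition of `w`: `2 h c U = k³ e - k'² w'`. So modulo `k`: `4 φ h c g U ≡ - 2 φ g k'² w'`, hence `k ∣ k'² (g' w + 2 φ g w')`: define `z`.
(e) `k z - 2 φ k' z' = g' w + 2 φ g w' - 2 φ (g w' + 2 φ' g' w) = 5 g' w`; conjugate `5 g w' = k' z' - 2 φ' k z`; `10 h c g U = 5 g k³ e - k'² (5 g w') = FF k (g e) z`. -/
def WDA_stmt : Prop := ∀ (k g : OO) (c h α β γ P₁ P₂ u v : ℤ), k.norm.natAbs.Prime → k.norm.natAbs ≠ 5 →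
  IsCoprime k (star g) → RQ k g c α β γ → (k.norm.natAbs : ℤ) ^ 3 ∣ h * (2 * α * u + β * v) - P₁ →
  (k.norm.natAbs : ℤ) ^ 3 ∣ h * (β * u + 2 * γ * v) - P₂ →
  ∃ e w z : OO, (h : OO) * c * (⟨u, v⟩ : OO) - (ph * P₁ - P₂) = k ^ 3 * e ∧
    star k ^ 3 * star e - 2 * h * c * star (⟨u, v⟩ : OO) = k ^ 2 * w ∧
    star g * w + 2 * ph * g * star w = k * z ∧ 10 * h * c * g * (⟨u, v⟩ : OO) = FF k (g * e) z

/-- **WDS** (medium; from WDA, WVA): the dual map with sizes. `x := h (2 α u + β v) / q³`; `P₁ := h (2αu + βv) - q³ round x`, `|P₁| = q³ nd x ≤ q³ / B ≤ 8 Q³ / B`, same `P₂` (the argument of `nd` is equal to `x` by `ring`). WDA gives `e, w, z`. Sizes at both real places (`|k|, |k'| ≤ 2 √Q`, `|k k'| > Q`, so `|k|, |k'| > √Q / 2`): `|U| ≤ 11 B`, `|P| ≤ 21 Q³ / B`;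
`|e| ≤ (h c 11 B + 21 Q³/B) 8 / Q^(3/2) ≤ (88 C₀ + 168) Q^(3/2) / B ≤ .. L` (as `h c B² ≤ C₀ Q³`, `Q^(3/2) ≤ L B`); `|w| ≤ (8 Q^(3/2) |e'| + 22 h c B) 4 / Q ≤ .. √Q L` (`h c B ≤ C₀ Q³ / B ≤ C₀ Q^(3/2) L`); `|z| ≤ (2G |w| + 8 G |w'|) 2/√Q ≤ .. G L`. -/
def WDS_stmt : Prop := ∀ C₀ : ℝ, 1 ≤ C₀ → ∃ C₁ : ℝ, 1 ≤ C₁ ∧ ∀ (Q B c h : ℕ) (G L : ℝ) (k g : OO) (α β γ : ℤ), KK Q k →
  1 ≤ Q → 1 ≤ B → 1 ≤ G → 0 < L → IsCoprime k (star g) → |va g| ≤ 2 * G → |vb g| ≤ 2 * G → RQ k g c α β γ →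
  (Q : ℝ) ^ 3 ≤ L ^ 2 * (B : ℝ) ^ 2 → (h : ℝ) * c * (B : ℝ) ^ 2 ≤ C₀ * (Q : ℝ) ^ 3 → ∀ u v : ℤ, |u| ≤ 4 * B → |v| ≤ 4 * B →
  helper3.FT.nd (2 * (h * α / (k.norm.natAbs : ℝ) ^ 3) * u + h * β / (k.norm.natAbs : ℝ) ^ 3 * v) ≤ 1 / B →
  helper3.FT.nd (h * β / (k.norm.natAbs : ℝ) ^ 3 * u + 2 * (h * γ / (k.norm.natAbs : ℝ) ^ 3) * v) ≤ 1 / B →
  ∃ e z : OO, |va e| ≤ C₁ * L ∧ |vb e| ≤ C₁ * L ∧ |va z| ≤ C₁ * (G * L) ∧ |vb z| ≤ C₁ * (G * L) ∧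
    10 * (h : OO) * c * g * (⟨u, v⟩ : OO) = FF k (g * e) z

/-! ## 3. Divisors of the cubic form -/

/-- **WDV** (medium; PURE). With `A = a`, `A' = - φ' z`, `B = - z'`, `X = - φ' a'`, `n = k`, `κ = k'`: `FF k a z = 5 A n³ - 2 A' n κ² + B κ³ =: F1`, `φ' * star (FF k a z) = A' n³ + 2 B n² κ - 5 X κ³ =: F2`, and `Rf := (A'B)³ + 75 (A'B)² AX - 625 A'B (AX)² + 3125 (AX)³ - 8 (A B⁵ + A'⁵ X) = φ'³ R0 a z`. The identity `U F1 + W F2 = -5 Rf κ⁵` holds in every commutative ring (`U, W` are in `/team-store/FT_NOTES.md`, section P1, and in `Pool/Agent/helper8/FT/P1.lean`). `h` divides `F1`, `F2` (`star h = h`), so `5 κ⁵ φ'³ R0`; `h` is coprime to `5 κ`, `φ'` is a unit; so `(h : OO) ∣ (R0 : OO)` and `h ∣ R0` (compare `re`). -/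
def WDV_stmt : Prop := ∀ (h : ℤ) (k a z : OO), IsCoprime (h : OO) (5 * (k * star k)) → (h : OO) ∣ FF k a z → h ∣ R0 a z

/-- **WSE** (medium; PURE): separation. Copy of `Pool/Agent/helper63/FT/P2.lean` over `OO` with `n = k, κ = k'`, `n₁ = k₁, κ₁ = k₁'`, `A, A', B, X` as in WDV, `D = k k₁' - k₁ k' = √5 dt k k₁`, `E = a² + 3ab + b²`, `a = k k₁'`, `b = k₁ k'`, `E = 5ab + D²`. Every prime of `h` divides `dt`, so `h ∣ dt^m` for some `m` and `D` is nilpotent modulo `h`, `5 a b` is a unit modulo `h`: `E` is coprime to `h` (or: `IsCoprime h E` because `h ∣ D^m`). As in P2: `h ∣ D A'`, `h ∣ D B`, `h ∣ D A`. So `h` divides `dt * z.re`, `dt * z.im`, `dt * a.re`, `dt * a.im` (`√5`, `φ'` cancel: `h` is coprime to 5), and no prime of `h` divides all of `z.re, z.im, a.re, a.im`. -/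
def WSE_stmt : Prop := ∀ (h : ℕ) (a z k k₁ : OO), IsCoprime (h : OO) (5 * (k * star k)) → IsCoprime (h : OO) (5 * (k₁ * star k₁)) →
  (h : OO) ∣ FF k a z → (h : OO) ∣ FF k₁ a z → (∀ p : ℕ, p.Prime → p ∣ h → (p : ℤ) ∣ dt k k₁) →
  (∀ p : ℕ, p.Prime → p ∣ h → ¬ ((p : OO) ∣ a ∧ (p : OO) ∣ z)) → (h : ℤ) ∣ dt k k₁

/-- **WRO** (medium; PURE): roots modulo `p`. `FF (x + y φ) a z = c₃ x³ + c₂ x² y + c₁ x y² + c₀ y³`, `c₃ = 5a + 2φ' z - z'`, `c₂ = 15 φ a + 2 φ' (φ + 2φ') z - 3 φ' z'`, `c₁ = 15 φ² a + 2 φ' (2 φ φ' + φ'²) z - 3 φ'² z'`, `c₀ = 5 φ³ a + 2 φ'³ φ z - φ'³ z'`. If `p` divides all `c_i` then `p` divides `- φ'³ c₃ + φ'² c₂ - φ' c₁ + c₀ = 5 √5³ a` and `φ³ c₃ - φ² c₂ + φ c₁ - c₀ = - √5³ z'` (signs by `ring`), so `p ∣ a`, `p ∣ z` (`p ≠ 5`). So one of the two integral cubic forms `re`, `im` is not zero modulo `p`; it has at most 3 zeros on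 the projective line over `ZMod p` (`card_roots_cubic_le` in `Pool/Agent/helper8/FT/P3.lean`; `none` is a zero only if the coefficient of `x³` vanishes, then the degree is at most 2). The second part: both `im` zero: `dt = 0` modulo `p`; both not zero: `re / im` equal. -/
def WRO_stmt : Prop := ∀ p : ℕ, p.Prime → p ≠ 5 →
  (∀ a z : OO, ¬ ((p : OO) ∣ a ∧ (p : OO) ∣ z) → ∀ S : Finset OO, (∀ k ∈ S, ¬ (p : OO) ∣ k ∧ (p : OO) ∣ FF k a z) →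
    (S.image (clp p)).card ≤ 3) ∧
  (∀ k k₁ : OO, ¬ (p : OO) ∣ k → ¬ (p : OO) ∣ k₁ → clp p k = clp p k₁ → (p : ℤ) ∣ dt k k₁)

/-- **WFA** (short-medium; PURE; from WVA): as `Pool/Agent/helper96/FT/P4.lean` for the real numbers `f k = va k / vb k` in `(-4, 4)`: `|vb k| > √Q / 2`, `f k - f k₁ = ± √5 dt k k₁ / (vb k vb k₁)`, so `|f k - f k₁| ≥ √5 W / (4 Q)` for `k ≠ k₁`: at most `1 + 8 * 4 Q / (√5 W)` elements. -/
def WFA_stmt : Prop := ∀ (Q W : ℕ) (S : Finset OO), 1 ≤ Q → 1 ≤ W → (∀ k ∈ S, KK Q k) →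
  (∀ k ∈ S, ∀ k₁ ∈ S, k ≠ k₁ → (W : ℤ) ≤ |dt k k₁|) → (S.card : ℝ) ≤ 1 + 15 * Q / W

/-- **WPC** (medium; from WSE, WRO, WFA): copy of `Pool/Agent/helper88/FT/PairCount.lean`. `δ := gcd (h, a.re, a.im, z.re, z.im)`, `h = δ h₀`, `a = δ a₀`, `z = δ z₀`, `h₀ ∣ FF k a₀ z₀`, no prime of `h₀` divides `a₀` and `z₀`. Classes: `k ↦ (clp p k)` for the primes `p ∣ h₀`: at most `3^ω(h₀)` classes (`Fintype.piFinset`, WRO; `p ∤ k` because `h` is coprime to `k k'`, `p ≠ 5`). Two different elements of one class: `dt k k₁ ≠ 0` (else `k₁ = ± k` because `gcd (re, im) = 1` for both, prime norm; then `k ∣ k₁`), every prime of `h₀` divides `dt`, so `h₀ ∣ dt` (WSE), `|dt| ≥ h₀`: WFA with `W = h₀`: `1 + 15 Q / h₀ = 1 + 15 Q δ / h ≤ 1 + 15 Q e / h`. -/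
def WPC_stmt : Prop := ∀ (Q h e : ℕ) (a z : OO) (S : Finset OO), 1 ≤ Q → 1 ≤ h →
  (∀ k ∈ S, KK Q k ∧ IsCoprime (h : OO) (5 * (k * star k)) ∧ (h : OO) ∣ FF k a z) →
  (∀ k ∈ S, ∀ k₁ ∈ S, k ∣ k₁ → k = k₁) → (∀ d : ℕ, d ∣ h → (d : OO) ∣ a → (d : OO) ∣ z → d ≤ e) →
  (S.card : ℝ) ≤ 3 ^ h.primeFactors.card * (1 + 15 * Q * e / h)

/-! ## 4. Degenerate vectors: `R0 a z = 0` -/

/-- **WRT** (medium; PURE). `W = norm a`, `Z = norm z` (not both zero), `A = a`, `A' = - φ' z`, `B = - z'`, `X = - φ' a'`: `A'B = φ' Z`, `AX = - φ' W`, `Rf = φ'³ R0 = 0` (WDV).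
Case `Z = 25 W`: `R0 = - 50000 W³ - 8 Tr τ`, `τ = φ³ a z'⁵`, `norm τ = - W Z⁵ = - 25⁵ W⁶`; `(Tr τ)² - 4 norm τ = 5 (τ.im)²`, `Tr τ = - 6250 W³`, so `5 (τ.im)² = 2 (6250 W³)²`; `√10` is irrational (or 2-adic valuations), so `W = 0`, `Z = 0`, contradiction.
Case `Z ≠ 25 W`: `P := A'B + 25AX = φ' (Z - 25 W) ≠ 0`. Let `(a₁, b₁, c₁) = (10AB, 2A'², -P)`, `(a₂, b₂, c₂) = (P, 2B², -10A'X)`, `m₁ = a₁b₂ - a₂b₁`, `m₂ = a₁c₂ - a₂c₁ = (A'B - 25AX)²`, `m₃ = b₁c₂ - b₂c₁`; identity `m₂² - m₁ m₃ = 5 P Rf = 0`. With `E1 = a₁n² + b₁nk + c₁k²`, `E2 = a₂n² + b₂nk + c₂k²`: `A' F1 - 5A F2 = - k E1`, `5X F1 + B F2 = n E2`.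
If `m₁ ≠ 0`: `(n, k) = (-m₂, m₁)`: `E1 = m₁ (a₁m₃ - b₁m₂ + c₁m₁) = 0` identically (use `m₂² = m₁m₃`), same `E2 = 0`; so `A'F1 = 5A F2`, `5X F1 = - B F2`, determinant `P ≠ 0`: `F1 = F2 = 0`. `k ≠ 0`; `n = 0` would give `B k³ = 0`, `5 X k³ = 0`, so `z = a = 0`. (`F1`, `F2` are the two left sides of the statement; the second up to sign.)
If `m₁ = 0`: `m₂ = 0`, so `A'B = 25AX`, `P = 2A'B ≠ 0`, `m₁ = 20AB³ - 4A'³B = 0`, `B ≠ 0`: `5AB² = A'³`: the second alternative. -/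
def WRT_stmt : Prop := ∀ a z : OO, (a ≠ 0 ∨ z ≠ 0) → R0 a z = 0 →
  (∃ n k : OO, n ≠ 0 ∧ k ≠ 0 ∧ 5 * a * n ^ 3 + 2 * star ph * z * n * k ^ 2 - star z * k ^ 3 = 0 ∧
    star ph * z * n ^ 3 + 2 * star z * n ^ 2 * k - 5 * star ph * star a * k ^ 3 = 0) ∨
  5 * a * star z ^ 2 = -(star ph ^ 3 * z ^ 3)

/-- **WMU** (short-medium; from WEU). `n, k` may be taken coprime (PID: divide by the gcd, the equations are homogeneous). First equation: `k² ∣ 5 a n³`, so `k² ∣ 5a`; `μ := 5 a n / k`. Second equation: `n² ∣ 5 φ' a' k³`, so `n ∣ 5 a'`; `τ := 5 a' k / n`, `μ τ = 25 a a' = 25 norm a`. With `λ = n/k`: first equation `z' = 5aλ³ + 2φ'zλ`, insert in the second (divided by `k³`): `5 φ' z λ³ = 5 φ' a' - 10 a λ⁵`, i.e. `z λ³ = a' + 2 φ a λ⁵` (`1/φ' = - φ`); with `λ = μ/(5a)` this is the claimed equation. (In `OO`: multiply everything by a power of `k`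 and cancel.) -/
def WMU_stmt : Prop := ∀ a z n k : OO, a ≠ 0 → n ≠ 0 → k ≠ 0 →
  5 * a * n ^ 3 + 2 * star ph * z * n * k ^ 2 - star z * k ^ 3 = 0 →
  star ph * z * n ^ 3 + 2 * star z * n ^ 2 * k - 5 * star ph * star a * k ^ 3 = 0 →
  ∃ μ : OO, μ ≠ 0 ∧ μ ∣ ((25 * a.norm : ℤ) : OO) ∧ 25 * a * z * μ ^ 3 = 3125 * a ^ 4 * star a + 2 * ph * μ ^ 5

/-- **WTU** (medium; PURE; from WEU): the number of divisors up to associates. `OO` is a UFD. As `Pool/Agent/helper26/LT/TA.lean` (there for ideals of `𝓞 K`; here for the ideals of `OO`, a Dedekind domain as a PID, or for elements up to associates): `τ(m m₁) ≤ τ(m) τ(m₁)`, a rational prime `p` is a prime or a product of two primes of `OO` (its norm is `p²`), so `τ(p^j) ≤ (j + 1)²`, `τ(m) ≤ d(m)²`, and the divisor bound `Pool.Agent.helper47.RA.card_divisors_le` (`Pool/Agent/helper47/RA/Num.lean`).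 -/
def WTU_stmt : Prop := ∀ ε : ℝ, 0 < ε → ∃ C : ℝ, 1 ≤ C ∧ ∀ m : ℤ, m ≠ 0 → ∀ S : Finset OO, (∀ μ ∈ S, μ ∣ (m : OO)) →
  (∀ μ ∈ S, ∀ ν ∈ S, Associated μ ν → μ = ν) → (S.card : ℝ) ≤ C * (m.natAbs : ℝ) ^ ε

/-- **WUN** (short-medium; PURE; from WVA): units. A unit has `norm = ± 1` (`QuadraticAlgebra.isUnit_iff_norm_isUnit`). If `u ≠ ± u₁` are units with `|va u| = |va u₁|`.. then `va (u / u₁) = ± 1`, so equal up to sign. A unit with `1 ≤ |va u| < φ` has `|vb u| = 1/|va u| ≤ 1`, so is `± 1` (from WBX-like bounds: `|im| < (φ + 1)/√5 < 2`, finitely many cases). So the numbers `log |va u|` of units different up to sign differ by at least `log φ > 2/5`, and lie in `[- log X, log X]`: at most `2 (1 + 5 log X)` units. -/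
def WUN_stmt : Prop := ∃ C : ℝ, 1 ≤ C ∧ ∀ X : ℝ, 1 ≤ X → ∀ S : Finset OO, (∀ u ∈ S, IsUnit u ∧ |va u| ≤ X ∧ |vb u| ≤ X) →
  (S.card : ℝ) ≤ C * (1 + Real.log X)

/-- **WDB** (short-medium; from WTU, WUN, WVA): a maximal pairwise non-associated subset `S₀` of `S` has at most `C T^ε` elements (WTU, `|m| ≤ T^j`, exponent `ε/(2j+2)`); every `μ ∈ S` is `u μ₀` with a unit `u`, `|va u| = |va μ| |vb μ₀| / |norm μ₀| ≤ T^(2j)`, same `vb`: WUN. -/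
def WDB_stmt : Prop := ∀ (ε : ℝ) (j : ℕ), 0 < ε → ∃ C : ℝ, 1 ≤ C ∧ ∀ T : ℕ, 1 ≤ T → ∀ m : ℤ, m ≠ 0 → |(m : ℝ)| ≤ (T : ℝ) ^ j →
  ∀ S : Finset OO, (∀ μ ∈ S, μ ∣ (m : OO) ∧ |va μ| ≤ (T : ℝ) ^ j ∧ |vb μ| ≤ (T : ℝ) ^ j) → (S.card : ℝ) ≤ C * (T : ℝ) ^ ε

/-- **WDG** (medium; from WRT, WMU, WDB, WBX, WVA): degenerate vectors. `a := g e`. If `a = 0` then `R0 = Z³ = 0`, `z = 0`: excluded, so `e ≠ 0`. The number of `e` is at most `C L²` (WBX). For a fixed `e` the number of `z`: (i) second alternative of WRT: `z³ = - 5 a z'² φ³`(`φ' φ = -1`), norms: `norm z = ± 25 norm a`.. and conjugating `z'³ = 5 a' z² φ'³`-like: `z⁵` is determined up to the sign of the norm, or: two solutions `z, z₁` have `(z/z₁)³ = ((z/z₁)')²`, so `x = z / z₁` (in the real numbers at both places: `x_a³ = x_b²`, `x_b³ = x_a²`) gives `x_a⁹ = x_b⁶ = x_a⁴`, `x_a⁵ = 1`, `x_a =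 1`: at most one `z ≠ 0`.
(ii) first alternative: WMU gives `μ`; `z` is determined by `μ` (cancel `25 a μ³`); sizes: `2 φ |μ|⁵ ≤ 25 |a| |z| |μ|³ + 3125 |a|⁴ |a'|` at the first place gives `|va μ| ≤ 10⁴ (|a| + |a'| + |z| + 1)³ ≤ T^j` (for `T ≥ 2` and a suitable fixed `j`; at the second place with `φ'`, `2 |φ'| ≥ 1`), `|25 norm a| ≤ T^j`, `norm a ≠ 0`: WDB: at most `C T^ε` values. (`T = 1`: everything is bounded; or replace `T` by `2 T`.) -/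
def WDG_stmt : Prop := ∀ ε : ℝ, 0 < ε → ∃ C : ℝ, 1 ≤ C ∧ ∀ (T : ℕ) (L M : ℝ) (g : OO), 1 ≤ T → 1 ≤ L → L ≤ T → 1 ≤ M → M ≤ (T : ℝ) ^ 3 →
  g ≠ 0 → |va g| ≤ (T : ℝ) ^ 2 → |vb g| ≤ (T : ℝ) ^ 2 → ∀ S : Finset (OO × OO),
  (∀ t ∈ S, |va t.1| ≤ L ∧ |vb t.1| ≤ L ∧ |va t.2| ≤ M ∧ |vb t.2| ≤ M ∧ t ≠ 0 ∧ R0 (g * t.1) t.2 = 0) →
  (S.card : ℝ) ≤ C * (T : ℝ) ^ ε * L ^ 2

/-! ## 5. Counting dual points.  A dual point is `t = (h, k, e, z)` with `h ∣ FF k (g e) z ≠ 0` -/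

/-- **WC1** (short-medium; from WDV, WPC). For `h` coprime to `5 k k'` with `h ∣ FF k a z`: `h ∣ R0 a z ≠ 0` (WDV), so at most `d(|R0|)` values of `h`; for each of them WPC with `e = cnt z` (if `z ≠ 0`: `d ∣ z` gives `d ∣ cnt z > 0`) or `e = cnt a` (if `z = 0`; then `a ≠ 0` because `R0 ≠ 0`), `h ≥ P`. (`IsCoprime (h : OO) (5 (k k'))` from `Nat.Coprime h (5 |norm k|)`: `k k' = norm k`.) -/
def WC1_stmt : Prop := ∀ (Q P : ℕ) (a z : OO) (D : ℝ) (S : Finset (ℕ × OO)), 1 ≤ Q → 1 ≤ P → 0 ≤ D → R0 a z ≠ 0 →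
  (∀ t ∈ S, P ≤ t.1 ∧ (3 : ℝ) ^ t.1.primeFactors.card ≤ D ∧ KK Q t.2 ∧ Nat.Coprime t.1 (5 * t.2.norm.natAbs) ∧ (t.1 : OO) ∣ FF t.2 a z) →
  (∀ t ∈ S, ∀ t₁ ∈ S, t.2 ∣ t₁.2 → t.2 = t₁.2) →
  (S.card : ℝ) ≤ ((R0 a z).natAbs.divisors.card : ℝ) * (D * (1 + 15 * Q * (if z = 0 then cnt a else cnt z : ℕ) / P))

/-- **WC2** (medium; from WC1, WBX, WGC, WVA): not degenerate dual points. Sum WC1 over `(e, z)`: `|R0 (g e) z| ≤ T^50`-like (polynomial in `T`; `|norm x| = |va x| |vb x|`, `|trO x| ≤ |va x| + |vb x|`), so `d(|R0|) ≤ C T^(ε/4)` and `3^ω(h) ≤ d(h)² ≤ C T^(ε/4)` (`P6c_div`, `P6c_three_pow` in `Pool/Agent/helper77/FT/P6c.lean`). The number of `(e, z)` is at most `C L² (G L)²` (WBX); the sum over `(e, z)`, `z ≠ 0`, of `cnt z` is at most `C L² (G L)² (1 + log (G L))` (WGC); for `z = 0`: `cnt (g e) ≤ |va (g e)| + |vb (g e)|`-like `≤ C G L`,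 and there are `C L²` values `e`: `C G L³ ≤ C G² L⁴`. The logarithm is `≤ C T^(ε/4)`. (Fix `C₁` first: the box of the statement has the extra constant `C₁`.) -/
def WC2_stmt : Prop := ∀ (C₁ ε : ℝ), 1 ≤ C₁ → 0 < ε → ∃ C : ℝ, 1 ≤ C ∧ ∀ (T Q P : ℕ) (G L : ℝ) (g : OO), 1 ≤ Q → Q ≤ T → 1 ≤ P → P ≤ T →
  1 ≤ G → G ≤ T → 1 ≤ L → L ≤ T → g ≠ 0 → |va g| ≤ 2 * G → |vb g| ≤ 2 * G → ∀ S : Finset (ℕ × OO × OO × OO),
  (∀ t ∈ S, P ≤ t.1 ∧ t.1 < 2 * P ∧ KK Q t.2.1 ∧ Nat.Coprime t.1 (5 * t.2.1.norm.natAbs) ∧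
    |va t.2.2.1| ≤ C₁ * L ∧ |vb t.2.2.1| ≤ C₁ * L ∧ |va t.2.2.2| ≤ C₁ * (G * L) ∧ |vb t.2.2.2| ≤ C₁ * (G * L) ∧
    (t.1 : OO) ∣ FF t.2.1 (g * t.2.2.1) t.2.2.2 ∧ R0 (g * t.2.2.1) t.2.2.2 ≠ 0) →
  (∀ t ∈ S, ∀ t₁ ∈ S, t.2.1 ∣ t₁.2.1 → t.2.1 = t₁.2.1) →
  (S.card : ℝ) ≤ C * (T : ℝ) ^ ε * (G ^ 2 * L ^ 4 * (1 + Q / P))

/-- **WC3** (short-medium; from WDG, WBX, WVA): degenerate dual points. `(e, z) ≠ 0` because `FF ≠ 0`. The number of `(e, z)` is at most `C T^(ε/2) L²` (WDG for a parameter `T₁ = ⌈C₁⌉ T`-like, `L` replaced by `C₁ L`), the number of `k` is at most `C Q` (WBX with `2 √Q`), and `h ∣ FF ≠ 0` implies `h ∣ norm FF ≠ 0`, hence at most `C T^(ε/2)` values of `h` (`norm FF` is polynomial in `T`). -/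
def WC3_stmt : Prop := ∀ (C₁ ε : ℝ), 1 ≤ C₁ → 0 < ε → ∃ C : ℝ, 1 ≤ C ∧ ∀ (T Q P : ℕ) (G L : ℝ) (g : OO), 1 ≤ Q → Q ≤ T → 1 ≤ P → P ≤ T →
  1 ≤ G → G ≤ T → 1 ≤ L → L ≤ T → g ≠ 0 → |va g| ≤ 2 * G → |vb g| ≤ 2 * G → ∀ S : Finset (ℕ × OO × OO × OO),
  (∀ t ∈ S, P ≤ t.1 ∧ t.1 < 2 * P ∧ KK Q t.2.1 ∧
    |va t.2.2.1| ≤ C₁ * L ∧ |vb t.2.2.1| ≤ C₁ * L ∧ |va t.2.2.2| ≤ C₁ * (G * L) ∧ |vb t.2.2.2| ≤ C₁ * (G * L) ∧
    (t.1 : OO) ∣ FF t.2.1 (g * t.2.2.1) t.2.2.2 ∧ FF t.2.1 (g * t.2.2.1) t.2.2.2 ≠ 0 ∧ R0 (g * t.2.2.1) t.2.2.2 = 0) →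
  (S.card : ℝ) ≤ C * (T : ℝ) ^ ε * (Q * L ^ 2)

/-- **WNS** (medium; from WDS, WC2, WC3, WEU): copy of `Pool/Agent/helper61/FT/N.lean`. Every set `nearPts B B ..` consists of `(0, 0)` (contributes at most `1`: total `P * card K`) and of `(u, v) ≠ (0, 0)`, for which WDS (with `h` replaced by `d h`) gives `(e, z)` with `10 (d h) c g (u + v φ) = FF k (g e) z`: choose one; then `h ∣ FF ≠ 0` (`g ≠ 0`, domain) and `(h, k, (u, v)) ↦ (h, k, e, z)` is injective (`FF` determines `(u, v)`). The image is the union of a set as in WC2 and a set as in WC3. (`1 ≤ Q, c, d`.) -/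
def WNS_stmt : Prop := ∀ (C₀ ε : ℝ), 1 ≤ C₀ → 0 < ε → ∃ C : ℝ, 1 ≤ C ∧ ∀ (T Q B c d P : ℕ) (G L : ℝ) (g : OO) (K : Finset OO) (r : OO → ℤ × ℤ × ℤ),
  1 ≤ Q → Q ≤ T → 1 ≤ B → 1 ≤ c → 1 ≤ d → 1 ≤ P → P ≤ T → 1 ≤ G → G ≤ T → 1 ≤ L → L ≤ T → g ≠ 0 → |va g| ≤ 2 * G → |vb g| ≤ 2 * G →
  (Q : ℝ) ^ 3 ≤ L ^ 2 * (B : ℝ) ^ 2 → (∀ k ∈ K, KK Q k ∧ IsCoprime k (star g) ∧ RQ k g c (r k).1 (r k).2.1 (r k).2.2) →
  (∀ k ∈ K, ∀ k₁ ∈ K, k ∣ k₁ → k = k₁) →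
  ∑ h ∈ (Ico P (2 * P)).filter (fun h => ((d * h * c : ℕ) : ℝ) * (B : ℝ) ^ 2 ≤ C₀ * (Q : ℝ) ^ 3),
    ∑ k ∈ K.filter (fun k => Nat.Coprime h (5 * k.norm.natAbs)), nearK B r (d * h) k ≤
    P * (K.card : ℝ) + C * (T : ℝ) ^ ε * (G ^ 2 * L ^ 4 * (1 + Q / P) + Q * L ^ 2)

/-- **SNR** (medium; from WNS, WBX): THE OUTPUT. `card K ≤ C Q` (WBX with `2 √Q`, `Q ≥ 1`). Write `h = 5^j h₁`, `5 ∤ h₁`; `q ∤ h` gives `Nat.Coprime h₁ (5 q)` (`q ≠ 5` prime). For every `j` with `5^j ≤ H` and every dyadic block `P = 2^i ≤ H`, `P ≤ h₁ < 2 P`, `5^j h₁ ≤ H`: Cauchy-Schwarz over `(h₁, k)` (at most `C Q P` pairs) and WNS with `d = 5^j` (the filter holds: `5^j h₁ c B² ≤ H c B² ≤ C₀ Q³`): the block is at most `√(C Q P) √(C Q P + C T^ε (G² L⁴ (1 + Q/P) + Q L²))` `≤ C T^ε (Q P + √(Q P) G L² + Q G L² + Q √P L)`, where `5^j P ≤ H`, so `P ≤ H`. There are at most `(1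 + log₂ H)²` blocks. -/
def SNR_stmt : Prop := ∀ (C₀ ε : ℝ), 1 ≤ C₀ → 0 < ε → ∃ C : ℝ, 1 ≤ C ∧ ∀ (T Q B c H : ℕ) (G L : ℝ) (g : OO) (K : Finset OO) (r : OO → ℤ × ℤ × ℤ),
  1 ≤ Q → Q ≤ T → 1 ≤ B → 1 ≤ c → H ≤ T → 1 ≤ G → G ≤ T → 1 ≤ L → L ≤ T → g ≠ 0 → |va g| ≤ 2 * G → |vb g| ≤ 2 * G →
  (Q : ℝ) ^ 3 ≤ L ^ 2 * (B : ℝ) ^ 2 → (H : ℝ) * c * (B : ℝ) ^ 2 ≤ C₀ * (Q : ℝ) ^ 3 →
  (∀ k ∈ K, KK Q k ∧ IsCoprime k (star g) ∧ RQ k g c (r k).1 (r k).2.1 (r k).2.2) → (∀ k ∈ K, ∀ k₁ ∈ K, k ∣ k₁ → k = k₁) →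
  ∑ k ∈ K, ∑ h ∈ (Icc 1 H).filter (fun h => ¬ k.norm.natAbs ∣ h), √(nearK B r h k) ≤
    C * (T : ℝ) ^ ε * (Q * H + √(Q * H) * G * L ^ 2 + Q * G * L ^ 2 + Q * √(H : ℝ) * L)

end Pool.Agent.RF
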