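import Pool.Agent.helper88.RF.SpecW
import Pool.Agent.helper14.RF.WDS
import Pool.Agent.helper16.RF.WSE
import Pool.Agent.helper20.RF.WUN
import Pool.Agent.helper26.RF.WIN
import Pool.Agent.helper3.RF.WC3
import Pool.Agent.helper32.RF.WDB
import Pool.Agent.helper34.RF.WBX
import Pool.Agent.helper34.RF.WEU
import Pool.Agent.helper34.RF.WGC
import Pool.Agent.helper34.RF.WRE
import Pool.Agent.helper34.RF.WVA
import Pool.Agent.helper35.RF.WRT
import Pool.Agent.helper41.RF.WDG
import Pool.Agent.helper53.RF.WTU
import Pool.Agent.helper66.RF.WNS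
import Pool.Agent.helper78.RF.WDV
import Pool.Agent.helper78.RF.WRD
import Pool.Agent.helper8.RF.WC1
import Pool.Agent.helper87.RF.WFA
import Pool.Agent.helper88.RF.WDA
import Pool.Agent.helper88.RF.WPC
import Pool.Agent.helper90.RF.WMU
import Pool.Agent.helper92.RF.WC2
import Pool.Agent.helper23.RF.WRO
import Pool.Agent.helper44.RF.SNR

namespace Pool.Agent.RF

theorem WVA_final : WVA_stmt := WVA_proof
theorem WEU_final : WEU_stmt := WEU_proof
theorem WIN_final : WIN_stmt := WIN_proof
theorem WBX_final : WBX_stmt := WBX_proof WVA_final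
theorem WGC_final : WGC_stmt := WGC_proof WVA_final
theorem WRE_final : WRE_stmt := WRE_proof WIN_final
theorem WRD_final : WRD_stmt := WRD_proof WIN_final
theorem WDA_final : WDA_stmt := WDA_proof WEU_final WIN_final
theorem WDS_final : WDS_stmt := WDS_proof WVA_final WDA_final WIN_final
theorem WDV_final : WDV_stmt := WDV_proof
theorem WSE_final : WSE_stmt := WSE_proof
theorem WFA_final : WFA_stmt := WFA_proof WVA_final
theorem WRO_final : WRO_stmt := WRO_proof
theorem WPC_final : WPC_stmt := WPC_proof WSE_final WRO_final WFA_final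
theorem WRT_final : WRT_stmt := WRT_proof WEU_final
theorem WMU_final : WMU_stmt := WMU_proof WEU_final
theorem WTU_final : WTU_stmt := WTU_proof WEU_final
theorem WUN_final : WUN_stmt := WUN_proof WVA_final
theorem WDB_final : WDB_stmt := WDB_proof WTU_final WUN_final WVA_final
theorem WDG_final : WDG_stmt := WDG_proof WRT_final WMU_final WDB_final WBX_final WVA_final WEU_final
theorem WC1_final : WC1_stmt := WC1_proof WDV_final WPC_final
theorem WC2_final : WC2_stmt := WC2_proof WC1_final WBX_final WGC_final WVA_final
theorem WC3_final : WC3_stmt := WC3 WDG_final WBX_final WVA_final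
theorem WNS_final : WNS_stmt := WNS_proof WDS_final WC2_final WC3_final WEU_final
theorem SNR_final : SNR_stmt := SNR_proof WNS_final WBX_final

end Pool.Agent.RF
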